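import Mathlib
import Pool.Agent.Helper13.R6.SheetA

/-! Row N1 of `Pool.Agent.Helper13.R6.SheetA`: at most `72 X⁴ T³` arrays. -/

set_option autoImplicit false

namespace Pool.Helper13.R6

/-- the divisors with a sign -/
def n1D (n : ℤ) : Finset ℤ :=
  (n.natAbs.divisors.image fun k : ℕ => (k : ℤ)) ∪
    (n.natAbs.divisors.image fun k : ℕ => -(k : ℤ))

theorem n1D_mem {n p : ℤ} (hn : n ≠ 0) (hp : p ∣ n) : p ∈ n1D n := by
  unfold n1D
  rw [Finset.mem_union, Finset.mem_image, Finset.mem_image]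
  have h : p.natAbs ∈ n.natAbs.divisors := by
    rw [Nat.mem_divisors]
    exact ⟨Int.natAbs_dvd_natAbs.2 hp, by omega⟩
  rcases Int.natAbs_eq p with h1 | h1
  · left
    exact ⟨p.natAbs, h, h1.symm⟩
  · right
    exact ⟨p.natAbs, h, h1.symm⟩

theorem n1D_card (n : ℤ) (T : ℕ) (h : n.natAbs.divisors.card ≤ T) :
    (n1D n).card ≤ 2 * T := by
  unfold n1D
  refine (Finset.card_union_le _ _).trans ?_
  have h1 := Finset.card_image_le (s := n.natAbs.divisors) (f := fun k : ℕ => (k : ℤ))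
  have h2 := Finset.card_image_le (s := n.natAbs.divisors) (f := fun k : ℕ => -(k : ℤ))
  omega

theorem n1_ent {d : Fin 4 → ℝ} {X : ℝ} {x : A4} (h : nx d x ≤ X) (i j : Fin 4) :
    d i * d j * |(x i j : ℝ)| ≤ X := by
  refine le_trans ?_ h
  exact Finset.le_sup' (fun p : Fin 4 × Fin 4 => d p.1 * d p.2 * |(x p.1 p.2 : ℝ)|)
    (Finset.mem_univ (i, j))

theorem n1_prod {d : Fin 4 → ℝ} {X : ℝ} {x : A4} (hd : ∀ i, 0 < d i) (hX : 0 ≤ X)
    (h : nx d x ≤ X) (i j k l : Fin 4) (hp : d i * d j * d k * d l = 1) :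
    |((x i j * x k l : ℤ) : ℝ)| ≤ X ^ 2 := by
  have h1 := n1_ent h i j
  have h2 := n1_ent h k l
  have h3 : |((x i j * x k l : ℤ) : ℝ)| =
      (d i * d j * |(x i j : ℝ)|) * (d k * d l * |(x k l : ℝ)|) := by
    push_cast
    rw [abs_mul]
    calc |(x i j : ℝ)| * |(x k l : ℝ)|
        = (d i * d j * d k * d l) * (|(x i j : ℝ)| * |(x k l : ℝ)|) := by rw [hp, one_mul]
      _ = _ := by ring
  rw [h3, sq]
  have hk := hd k
  have hl := hd l
  exact mul_le_mul h1 h2 (by positivity) hX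

/-- from the real bound to the bound by `⌊X²⌋₊` -/
theorem n1_flo {z : ℤ} {X : ℝ} (h : |(z : ℝ)| ≤ X ^ 2) : z.natAbs ≤ ⌊X ^ 2⌋₊ := by
  apply Nat.le_floor
  rw [Nat.cast_natAbs]
  push_cast
  exact h

theorem n1_T {z : ℤ} {X : ℝ} {T : ℕ} (hz : z ≠ 0) (h : |(z : ℝ)| ≤ X ^ 2)
    (hT : ∀ m : ℕ, 1 ≤ m → (m : ℝ) ≤ X ^ 2 → m.divisors.card ≤ T) :
    (n1D z).card ≤ 2 * T := by
  apply n1D_card
  apply hT
  · omega
  · rw [Nat.cast_natAbs]
    push_cast
    exact h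

theorem n1_ext {x y : A4} (hx : ∀ i j, x i j = - x j i) (hy : ∀ i j, y i j = - y j i)
    (h1 : x 0 1 = y 0 1) (h2 : x 0 2 = y 0 2) (h3 : x 0 3 = y 0 3) (h4 : x 2 3 = y 2 3)
    (h5 : x 3 1 = y 3 1) (h6 : x 1 2 = y 1 2) : x = y := by
  have a0 := hx 0 0
  have a1 := hx 1 1
  have a2 := hx 2 2
  have a3 := hx 3 3
  have b0 := hy 0 0
  have b1 := hy 1 1
  have b2 := hy 2 2
  have b3 := hy 3 3
  have c1 := hx 1 0
  have c2 := hx 2 0
  have c3 := hx 3 0
  have c4 := hx 3 2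
  have c5 := hx 1 3
  have c6 := hx 2 1
  have e1 := hy 1 0
  have e2 := hy 2 0
  have e3 := hy 3 0
  have e4 := hy 3 2
  have e5 := hy 1 3
  have e6 := hy 2 1
  funext i j
  fin_cases i <;> fin_cases j <;> simp <;> omega

/-- the row N1 -/
theorem st_N1 : ST_N1 := by
  refine ⟨72, by norm_num, ?_⟩
  intro d X T hd hp hX hT S hS
  have hX0 : (0 : ℝ) ≤ X := by linarith
  set N : ℕ := ⌊X ^ 2⌋₊ with hN
  have hNX : (N : ℝ) ≤ X ^ 2 := Nat.floor_le (by positivity)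
  -- the facts for one array
  have hf : ∀ x ∈ S, |((x 0 1 * x 2 3 : ℤ) : ℝ)| ≤ X ^ 2 ∧ |((x 0 2 * x 3 1 : ℤ) : ℝ)| ≤ X ^ 2 ∧
      |((x 0 3 * x 1 2 : ℤ) : ℝ)| ≤ X ^ 2 ∧
      x 0 1 * x 2 3 + x 0 2 * x 3 1 + x 0 3 * x 1 2 = 0 ∧ x 0 1 ≠ 0 ∧ x 0 2 ≠ 0 ∧ x 0 3 ≠ 0 ∧
      x 0 1 * x 2 3 ≠ 0 ∧ x 0 2 * x 3 1 ≠ 0 ∧ x 0 3 * x 1 2 ≠ 0 := by
    intro x hx
    have h := hS x hx
    have e1 := h.nz 0 1 (by decide)
    have e2 := h.nz 0 2 (by decide)
    have e3 := h.nz 0 3 (by decide)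
    have e4 := h.nz 2 3 (by decide)
    have e5 := h.nz 3 1 (by decide)
    have e6 := h.nz 1 2 (by decide)
    refine ⟨n1_prod hd hX0 h.hi 0 1 2 3 hp, n1_prod hd hX0 h.hi 0 2 3 1 (by linarith),
      n1_prod hd hX0 h.hi 0 3 1 2 (by linarith), ?_, e1, e2, e3, mul_ne_zero e1 e4,
      mul_ne_zero e2 e5, mul_ne_zero e3 e6⟩
    have h1 := h.plu.2
    have h2 := h.plu.1 1 3
    rw [h2] at h1
    linarith
  have hmap : ∀ x ∈ S, (fun x : A4 => (x 0 1 * x 2 3, x 0 2 * x 3 1)) x ∈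
      Finset.Icc (-(N : ℤ)) N ×ˢ Finset.Icc (-(N : ℤ)) N := by
    intro x hx
    obtain ⟨h1, h2, -⟩ := hf x hx
    have h1' := n1_flo h1
    have h2' := n1_flo h2
    rw [Finset.mem_product, Finset.mem_Icc, Finset.mem_Icc]
    dsimp only
    constructor <;> constructor <;> omega
  have hfib : ∀ b ∈ Finset.Icc (-(N : ℤ)) N ×ˢ Finset.Icc (-(N : ℤ)) N,
      (S.filter fun x => (fun x : A4 => (x 0 1 * x 2 3, x 0 2 * x 3 1)) x = b).card
        ≤ (2 * T) * ((2 * T) * (2 * T)) := by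
    rintro ⟨a, b⟩ -
    rcases Finset.eq_empty_or_nonempty
      (S.filter fun x => (fun x : A4 => (x 0 1 * x 2 3, x 0 2 * x 3 1)) x = (a, b)) with he | ⟨y, hy⟩
    · rw [he]
      simp
    · rw [Finset.mem_filter] at hy
      obtain ⟨hyS, hyab⟩ := hy
      have hya : y 0 1 * y 2 3 = a := congrArg Prod.fst hyab
      have hyb : y 0 2 * y 3 1 = b := congrArg Prod.snd hyab
      obtain ⟨y1, y2, y3, y4, -, -, -, y5, y6, y7⟩ := hf y hyS
      have hyc : y 0 3 * y 1 2 = -(a + b) := by rw [← hya, ← hyb]; linarith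
      rw [hya] at y1 y5
      rw [hyb] at y2 y6
      rw [hyc] at y3 y7
      have c1 := n1_T y5 y1 hT
      have c2 := n1_T y6 y2 hT
      have c3 := n1_T y7 y3 hT
      have hcard : (n1D a ×ˢ (n1D b ×ˢ n1D (-(a + b)))).card ≤ (2 * T) * ((2 * T) * (2 * T)) := by
        rw [Finset.card_product, Finset.card_product]
        exact Nat.mul_le_mul c1 (Nat.mul_le_mul c2 c3)
      refine le_trans ?_ hcard
      refine Finset.card_le_card_of_injOn (fun x : A4 => (x 0 1, (x 0 2, x 0 3))) ?_ ?_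
      · intro x hx
        rw [Finset.mem_coe, Finset.mem_filter] at hx
        obtain ⟨hxS, hxab⟩ := hx
        have hxa : x 0 1 * x 2 3 = a := congrArg Prod.fst hxab
        have hxb : x 0 2 * x 3 1 = b := congrArg Prod.snd hxab
        obtain ⟨-, -, -, x4, -⟩ := hf x hxS
        have hxc : x 0 3 * x 1 2 = -(a + b) := by rw [← hxa, ← hxb]; linarith
        rw [Finset.mem_coe, Finset.mem_product, Finset.mem_product]
        exact ⟨n1D_mem y5 ⟨_, hxa.symm⟩, n1D_mem y6 ⟨_, hxb.symm⟩, n1D_mem y7 ⟨_, hxc.symm⟩⟩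
      · intro x hx z hz hxz
        rw [Finset.mem_coe, Finset.mem_filter] at hx hz
        obtain ⟨hxS, hxab⟩ := hx
        obtain ⟨hzS, hzab⟩ := hz
        have hxa : x 0 1 * x 2 3 = a := congrArg Prod.fst hxab
        have hxb : x 0 2 * x 3 1 = b := congrArg Prod.snd hxab
        have hza : z 0 1 * z 2 3 = a := congrArg Prod.fst hzab
        have hzb : z 0 2 * z 3 1 = b := congrArg Prod.snd hzab
        obtain ⟨-, -, -, x4, x5, x6, x7, -⟩ := hf x hxS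
        obtain ⟨-, -, -, z4, -⟩ := hf z hzS
        have h1 : x 0 1 = z 0 1 := congrArg Prod.fst hxz
        have h23 : (x 0 2, x 0 3) = (z 0 2, z 0 3) := congrArg Prod.snd hxz
        have h2 : x 0 2 = z 0 2 := congrArg Prod.fst h23
        have h3 : x 0 3 = z 0 3 := congrArg Prod.snd h23
        refine n1_ext (hS x hxS).plu.1 (hS z hzS).plu.1 h1 h2 h3 ?_ ?_ ?_
        · apply mul_left_cancel₀ x5
          rw [hxa, h1, hza]
        · apply mul_left_cancel₀ x6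
          rw [hxb, h2, hzb]
        · apply mul_left_cancel₀ x7
          have e1 : x 0 3 * x 1 2 = -(a + b) := by rw [← hxa, ← hxb]; linarith
          have e2 : z 0 3 * z 1 2 = -(a + b) := by rw [← hza, ← hzb]; linarith
          rw [e1, h3, e2]
  have hle := Finset.card_le_mul_card_image_of_maps_to hmap _ hfib
  rw [Finset.card_product, Int.card_Icc] at hle
  have hN1 : ((N : ℤ) + 1 - -(N : ℤ)).toNat = 2 * N + 1 := by omega
  rw [hN1] at hle
  have hle' : (S.card : ℝ) ≤ ((2 * T) * ((2 * T) * (2 * T)) * ((2 * N + 1) * (2 * N + 1)) : ℝ) := by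
    exact_mod_cast hle
  refine hle'.trans ?_
  have hX2 : (1 : ℝ) ≤ X ^ 2 := by nlinarith
  have hb : (2 * (N : ℝ) + 1) ≤ 3 * X ^ 2 := by linarith
  have hb2 : (2 * (N : ℝ) + 1) * (2 * N + 1) ≤ (3 * X ^ 2) * (3 * X ^ 2) :=
    mul_le_mul hb hb (by positivity) (by positivity)
  calc ((2 * T) * ((2 * T) * (2 * T)) * ((2 * N + 1) * (2 * N + 1)) : ℝ)
      ≤ (2 * T) * ((2 * T) * (2 * T)) * ((3 * X ^ 2) * (3 * X ^ 2)) :=
        mul_le_mul_of_nonneg_left hb2 (by positivity)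
    _ = 72 * X ^ 4 * T ^ 3 := by ring

end Pool.Helper13.R6
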