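import Pool.Agent.Helper51.R5.ISO

/-! Row ISO of `Helper17/R5/Sheet` for a node `v` with last coordinate one. -/

set_option autoImplicit false

namespace Pool.Helper13.R6

open Pool.Helper17.R5 (V3 TF tfa tfb tfh tfk tfd tfe ev pol disc st_ISO)

/-- an isotropic vector exists if the value at one node `(v₂, v₁, 1)` is a nonzero square -/
theorem iso6 (N : TF) (v : V3) (y Y : ℤ) (hv : v.2.2 = 1) (he : ev N v = y ^ 2) (hy : y ≠ 0)
    (hd : disc N = Y ^ 2) : ∃ t : V3, t ≠ 0 ∧ ev N t = 0 := by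
  obtain ⟨a, b, h, k, d, e⟩ := N
  obtain ⟨v1, v2, v3⟩ := v
  dsimp only at hv
  subst hv
  set N' : TF := (ev (a, b, h, k, d, e) (v1, v2, 1), 2 * a * v1 + b * v2 + k, a,
    b * v1 + 2 * h * v2 + d, b, h) with hN'
  have h1 : disc N' = Y ^ 2 := by
    rw [← hd, hN']
    simp only [disc, ev, tfa, tfb, tfh, tfk, tfd, tfe]
    ring
  obtain ⟨⟨s1, s2, s3⟩, hs0, hs⟩ := st_ISO N' y Y he hy h1
  refine ⟨(v1 * s1 + s2, v2 * s1 + s3, s1), ?_, ?_⟩
  · intro h0
    apply hs0
    have e1 : v1 * s1 + s2 = 0 := congrArg (fun t : V3 => t.1) h0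
    have e2 : v2 * s1 + s3 = 0 := congrArg (fun t : V3 => t.2.1) h0
    have e3 : s1 = 0 := congrArg (fun t : V3 => t.2.2) h0
    subst e3
    have e4 : s2 = 0 := by linarith
    have e5 : s3 = 0 := by linarith
    subst e4
    subst e5
    rfl
  · rw [← hs, hN']
    simp only [ev, tfa, tfb, tfh, tfk, tfd, tfe]
    ring

end Pool.Helper13.R6
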