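import Pool.Agent.Helper67.R6.Fam

/-! Row DIV of `Helper67/R6/Fam`: the twelve abscissae are integral. -/

set_option autoImplicit false

namespace Pool.Helper67.R6

theorem div_cases : ∀ i j : Fin 6, SP i j → (xi i - xi j) ^ 2 = 1 ∨ (i = 0 ∧ j = 2) ∨
    (i = 2 ∧ j = 0) ∨ (i = 3 ∧ j = 5) ∨ (i = 5 ∧ j = 3) := by
  unfold SP xi
  decide

theorem xn_comm (w : Par) (i j : Fin 6) (s : ℤ) : xn w i j s = xn w j i s := by
  unfold xn
  ring

theorem st_DIV (hREL : ST_REL) : ST_DIV := by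
  intro w hw i j hij s hs
  obtain ⟨-, -, ⟨hy, ha, hb, hc, hd, he⟩, -, -⟩ := hREL w hw
  have h4 : (4 : ℤ) ∣ ((QQ.factorial : ℕ) : ℤ) :=
    Int.natCast_dvd_natCast.2 (Nat.dvd_factorial (by norm_num) (by unfold QQ; norm_num))
  have hy0 := h4.trans (hy 0)
  have hy2 := h4.trans (hy 2)
  have hy3 := h4.trans (hy 3)
  have hy5 := h4.trans (hy 5)
  replace ha := h4.trans ha
  replace hb := h4.trans hb
  replace hc := h4.trans hc
  replace hd := h4.trans hd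
  replace he := h4.trans he
  clear h4 hy
  have e0 : (![13, 13, 23, 19, 17, 7] : Fin 6 → ℤ) 0 = 13 := rfl
  have e2 : (![13, 13, 23, 19, 17, 7] : Fin 6 → ℤ) 2 = 23 := rfl
  have e3 : (![13, 13, 23, 19, 17, 7] : Fin 6 → ℤ) 3 = 19 := rfl
  have e5 : (![13, 13, 23, 19, 17, 7] : Fin 6 → ℤ) 5 = 7 := rfl
  rw [e0] at hy0
  rw [e2] at hy2
  rw [e3] at hy3
  rw [e5] at hy5
  obtain ⟨A, hA⟩ := ha
  obtain ⟨C, hC⟩ := hc
  obtain ⟨E, hE⟩ := he
  obtain ⟨P, hP⟩ := hy0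
  obtain ⟨Q, hQ⟩ := hy2
  obtain ⟨P', hP'⟩ := hy3
  obtain ⟨Q', hQ'⟩ := hy5
  have hA' : ca w = 3 + 4 * A := by linarith
  have hC' : cc w = -9 + 4 * C := by linarith
  have hE' : ce w = 289 + 4 * E := by linarith
  have hP1 : YY w 0 = 13 + 4 * P := by linarith
  have hQ1 : YY w 2 = 23 + 4 * Q := by linarith
  have hP2 : YY w 3 = 19 + 4 * P' := by linarith
  have hQ2 : YY w 5 = 7 + 4 * Q' := by linarith
  have k1 : (4 : ℤ) ∣ xn w 0 2 s := by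
    have e : xn w 0 2 s = 2 * ca w * 1 ^ 2 * 3 ^ 2 + cb w * 1 * 3 * (1 + 3) +
        cc w * (1 ^ 2 + 4 * 1 * 3 + 3 ^ 2) + cd w * (1 + 3) + 2 * ce w -
        2 * s * YY w 0 * YY w 2 := rfl
    rw [e, hA', hC', hE', hP1, hQ1]
    rcases hs with rfl | rfl
    · exact ⟨-41 + 18 * A + 3 * cb w + 22 * C + cd w + 2 * E - (26 * Q + 46 * P + 8 * P * Q),
        by ring⟩
    · exact ⟨258 + 18 * A + 3 * cb w + 22 * C + cd w + 2 * E + (26 * Q + 46 * P + 8 * P * Q),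
        by ring⟩
  have k2 : (4 : ℤ) ∣ xn w 3 5 s := by
    have e : xn w 3 5 s = 2 * ca w * (-1) ^ 2 * (-3) ^ 2 + cb w * (-1) * (-3) * (-1 + -3) +
        cc w * ((-1) ^ 2 + 4 * (-1) * (-3) + (-3) ^ 2) + cd w * (-1 + -3) + 2 * ce w -
        2 * s * YY w 3 * YY w 5 := rfl
    rw [e, hA', hC', hE', hP2, hQ2]
    rcases hs with rfl | rfl
    · exact ⟨42 + 18 * A - 3 * cb w + 22 * C - cd w + 2 * E -
        (38 * Q' + 14 * P' + 8 * P' * Q'), by ring⟩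
    · exact ⟨175 + 18 * A - 3 * cb w + 22 * C - cd w + 2 * E +
        (38 * Q' + 14 * P' + 8 * P' * Q'), by ring⟩
  unfold xP
  apply Int.mul_ediv_cancel'
  rcases div_cases i j hij with h | ⟨rfl, rfl⟩ | ⟨rfl, rfl⟩ | ⟨rfl, rfl⟩ | ⟨rfl, rfl⟩
  · rw [h]
    exact one_dvd _
  · exact k1
  · rw [xn_comm]
    exact k1
  · exact k2
  · rw [xn_comm]
    exact k2

end Pool.Helper67.R6
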