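import Pool.Agent.Helper67.R6.Fam

/-! Row PTS of `Helper67/R6/Fam`: the known points lie on the curve. -/

set_option autoImplicit false

namespace Pool.Helper67.R6

open Pool.Helper17.R5 (V3 TF tfa tfb tfh tfk tfd tfe ev pol disc det3 Ix)

/-- the Gram determinant -/
theorem pts_core (a b c d e x ξ η P Q s : ℤ) (hs : s ^ 2 = 1)
    (h1 : a * ξ ^ 4 + b * ξ ^ 3 + (2 * c + x) * ξ ^ 2 + (c - x) * ξ ^ 2 + d * ξ + e = P ^ 2)
    (h2 : a * η ^ 4 + b * η ^ 3 + (2 * c + x) * η ^ 2 + (c - x) * η ^ 2 + d * η + e = Q ^ 2)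
    (h3 : (ξ - η) ^ 2 * x = 2 * a * ξ ^ 2 * η ^ 2 + b * ξ * η * (ξ + η) +
      c * (ξ ^ 2 + 4 * ξ * η + η ^ 2) + d * (ξ + η) + 2 * e - 2 * s * P * Q) :
    (ξ - η) ^ 2 * (a * d ^ 2 + b ^ 2 * e + (2 * c + x) * (c - x) ^ 2 - b * d * (c - x) -
      4 * a * (2 * c + x) * e) =
      (P * (2 * a * η ^ 2 + b * η + (c - x)) - s * Q * (2 * a * ξ ^ 2 + b * ξ + (c - x))) ^ 2 := by
  linear_combination
    ((2 * a * η ^ 2 + b * η + (c - x)) ^ 2 - 4 * a *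
      (a * η ^ 4 + b * η ^ 3 + (2 * c + x) * η ^ 2 + (c - x) * η ^ 2 + d * η + e)) * h1 +
    ((2 * a * ξ ^ 2 + b * ξ + (c - x)) ^ 2 - 4 * a * P ^ 2) * h2 -
    (a * (2 * s * P * Q + (2 * a * ξ ^ 2 * η ^ 2 + b * ξ * η * (ξ + η) +
      c * (ξ ^ 2 + 4 * ξ * η + η ^ 2) + d * (ξ + η) + 2 * e - (ξ - η) ^ 2 * x)) -
      (2 * a * η ^ 2 + b * η + (c - x)) * (2 * a * ξ ^ 2 + b * ξ + (c - x))) * h3 +
    (4 * a * P ^ 2 * Q ^ 2 - Q ^ 2 * (2 * a * ξ ^ 2 + b * ξ + (c - x)) ^ 2) * hs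

theorem xi_inj : ∀ i j : Fin 6, i ≠ j → xi i - xi j ≠ 0 := by
  unfold xi
  decide

theorem st_PTS (hREL : ST_REL) : ST_PTS := by
  intro w hw i j hij s x hs hx
  obtain ⟨-, -, -, -, h⟩ := hREL w hw
  obtain ⟨hv, -, hd⟩ := h x
  have hs2 : s ^ 2 = 1 := by
    rcases hs with rfl | rfl <;> norm_num
  have h1 := hv i
  have h2 := hv j
  simp only [ev, nf, vs, tfa, tfb, tfh, tfk, tfd, tfe] at h1 h2
  simp only [disc, nf, tfa, tfb, tfh, tfk, tfd, tfe] at hd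
  unfold xn at hx
  have hk := pts_core (ca w) (cb w) (cc w) (cd w) (ce w) x (xi i) (xi j) (YY w i) (YY w j) s hs2
    (by linear_combination h1) (by linear_combination h2) hx
  have hD := xi_inj i j hij
  have hdv : (xi i - xi j) ^ 2 ∣ (YY w i * (2 * ca w * xi j ^ 2 + cb w * xi j + (cc w - x)) -
      s * YY w j * (2 * ca w * xi i ^ 2 + cb w * xi i + (cc w - x))) ^ 2 := ⟨_, hk.symm⟩
  rw [Int.pow_dvd_pow_iff (by norm_num)] at hdv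
  obtain ⟨Y, hY⟩ := hdv
  refine ⟨Y, ?_⟩
  rw [hY, mul_pow] at hk
  have h4 := mul_left_cancel₀ (pow_ne_zero 2 hD) hk
  rw [← h4]
  linear_combination hd

end Pool.Helper67.R6
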