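import Pool.Agent.Helper67.R6.Fam

/-! Row SVA of `Helper67/R6/Fam`: at most 171 pairs `(X, Y)` for `z` not exceptional. -/

set_option autoImplicit false

namespace Pool.Helper67.R6

section pd
variable {F : Type} [Field F] {Z : Finset (F × F)} {k l : ℕ} {f g : F × F → F}

theorem pd_ext (h : PD Z k g) (e : ∀ z ∈ Z, f z = g z) : PD Z k f := by
  obtain ⟨P, h1, h2⟩ := h
  exact ⟨P, h1, fun z hz => (e z hz).trans (h2 z hz)⟩

theorem pd_mono (h : PD Z k f) (hkl : k ≤ l) : PD Z l f := by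
  obtain ⟨P, h1, h2⟩ := h
  exact ⟨P, h1.trans hkl, h2⟩

theorem pd_add (hf : PD Z k f) (hg : PD Z k g) : PD Z k (fun z => f z + g z) := by
  obtain ⟨P, h1, h2⟩ := hf
  obtain ⟨Q, h3, h4⟩ := hg
  refine ⟨P + Q, (MvPolynomial.totalDegree_add _ _).trans (max_le h1 h3), fun z hz => ?_⟩
  show f z + g z = _
  rw [map_add, h2 z hz, h4 z hz]

theorem pd_mul (hf : PD Z k f) (hg : PD Z l g) : PD Z (k + l) (fun z => f z * g z) := by
  obtain ⟨P, h1, h2⟩ := hf
  obtain ⟨Q, h3, h4⟩ := hg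
  refine ⟨P * Q, (MvPolynomial.totalDegree_mul _ _).trans (add_le_add h1 h3), fun z hz => ?_⟩
  show f z * g z = _
  rw [map_mul, h2 z hz, h4 z hz]

theorem pd_const (c : F) (k : ℕ) : PD Z k (fun _ => c) := by
  refine ⟨MvPolynomial.C c, ?_, fun z _ => ?_⟩
  · rw [MvPolynomial.totalDegree_C]
    exact Nat.zero_le _
  · rw [MvPolynomial.eval_C]

theorem pd_cmul (c : F) (hf : PD Z k f) : PD Z k (fun z => c * f z) := by
  have h := pd_mul (pd_const (Z := Z) c 0) hf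
  rw [Nat.zero_add] at h
  exact h

theorem pd_fst : PD Z 1 (fun z => z.1) := by
  refine ⟨MvPolynomial.X 0, ?_, fun z _ => ?_⟩
  · rw [MvPolynomial.totalDegree_X]
  · rw [MvPolynomial.eval_X]
    rfl

theorem pd_snd : PD Z 1 (fun z => z.2) := by
  refine ⟨MvPolynomial.X 1, ?_, fun z _ => ?_⟩
  · rw [MvPolynomial.totalDegree_X]
  · rw [MvPolynomial.eval_X]
    rfl

end pd

/-- the quadratic part of `∑ c_i U_i ^ 2` (with `U_2 / 4` for `U_2`) -/
def svf {F : Type} [Field F] (c0 c1 c2 : F) (z : Fin 6 → F) : Fin 3 → F :=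
  ![c0 * z 3 ^ 2 + c1 * z 4 ^ 2 + c2 * z 5 ^ 2,
    -2 * (c0 * (z 0 * z 3) + c1 * (z 1 * z 4) + c2 * (z 2 * z 5)),
    c0 * z 0 ^ 2 + c1 * z 1 ^ 2 + c2 * z 2 ^ 2]

theorem bf_svf {F : Type} [Field F] (c0 c1 c2 : F) (z : Fin 6 → F) (p : F × F) :
    bf (svf c0 c1 c2 z) p = c0 * U (p, z) 0 ^ 2 + c1 * U (p, z) 1 ^ 2 +
      c2 * (p.1 * z 5 - z 2 * p.2) ^ 2 := by
  simp only [bf, svf, U, Matrix.cons_val_zero, Matrix.cons_val_one, Matrix.cons_val]
  ring

theorem rs_fg {F : Type} [Field F] (z : Fin 6 → F) :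
    625 * rs (svf (-13) 16 (-48) z) (svf 5 (-8) 48 z) =
      576 * ((5 * V z 0 + 4 * V z 1 + V z 2) * (5 * V z 0 + 4 * V z 1 - V z 2) *
        ((5 * V z 0 - 4 * V z 1 + V z 2) * (5 * V z 0 - 4 * V z 1 - V z 2))) := by
  simp only [rs, svf, V, Matrix.cons_val_zero, Matrix.cons_val_one, Matrix.cons_val]
  ring

theorem rs_fh {F : Type} [Field F] (z : Fin 6 → F) :
    625 * rs (svf (-13) 16 (-48) z) (svf 15 (-6) 16 z) =
      4 * ((5 * V z 0 + 16 * V z 1 + 9 * V z 2) * (5 * V z 0 + 16 * V z 1 - 9 * V z 2) *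
        ((5 * V z 0 - 16 * V z 1 + 9 * V z 2) * (5 * V z 0 - 16 * V z 1 - 9 * V z 2))) := by
  simp only [rs, svf, V, Matrix.cons_val_zero, Matrix.cons_val_one, Matrix.cons_val]
  ring

theorem st_SVA (hPDZ : ST_PDZ) (hDEG : ST_DEG) : ST_SVA := by
  intro F _ h30 z hEX Z hZ
  have h2 : (2 : F) ≠ 0 := fun h => h30 (by linear_combination (15 : F) * h)
  have h3 : (3 : F) ≠ 0 := fun h => h30 (by linear_combination (10 : F) * h)
  have h5 : (5 : F) ≠ 0 := fun h => h30 (by linear_combination (6 : F) * h)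
  -- the exceptional lines
  have hx : ∀ ε δ : F, (ε = 1 ∨ ε = -1) → (δ = 1 ∨ δ = -1) →
      5 * V z 0 + 4 * ε * V z 1 + δ * V z 2 ≠ 0 ∧ 5 * V z 0 + 16 * ε * V z 1 + 9 * δ * V z 2 ≠ 0 :=
    fun ε δ hε hδ => ⟨fun h => hEX ⟨ε, δ, hε, hδ, Or.inl h⟩, fun h => hEX ⟨ε, δ, hε, hδ, Or.inr h⟩⟩
  have x1 := hx 1 1 (Or.inl rfl) (Or.inl rfl)
  have x2 := hx 1 (-1) (Or.inl rfl) (Or.inr rfl)
  have x3 := hx (-1) 1 (Or.inr rfl) (Or.inl rfl)
  have x4 := hx (-1) (-1) (Or.inr rfl) (Or.inr rfl)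
  have hfg : rs (svf (-13) 16 (-48) z) (svf 5 (-8) 48 z) ≠ 0 := by
    intro h
    have e := rs_fg z
    rw [h, mul_zero] at e
    have h576 : (576 : F) ≠ 0 := by
      have : (576 : F) = 2 ^ 6 * 3 ^ 2 := by norm_num
      rw [this]
      exact mul_ne_zero (pow_ne_zero _ h2) (pow_ne_zero _ h3)
    refine mul_ne_zero h576 (mul_ne_zero (mul_ne_zero ?_ ?_) (mul_ne_zero ?_ ?_)) e.symm
    · intro h'
      exact x1.1 (by linear_combination h')
    · intro h'
      exact x2.1 (by linear_combination h')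
    · intro h'
      exact x3.1 (by linear_combination h')
    · intro h'
      exact x4.1 (by linear_combination h')
  have hfh : rs (svf (-13) 16 (-48) z) (svf 15 (-6) 16 z) ≠ 0 := by
    intro h
    have e := rs_fh z
    rw [h, mul_zero] at e
    have h4 : (4 : F) ≠ 0 := by
      have : (4 : F) = 2 ^ 2 := by norm_num
      rw [this]
      exact pow_ne_zero _ h2
    refine mul_ne_zero h4 (mul_ne_zero (mul_ne_zero ?_ ?_) (mul_ne_zero ?_ ?_)) e.symm
    · intro h'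
      exact x1.2 (by linear_combination h')
    · intro h'
      exact x2.2 (by linear_combination h')
    · intro h'
      exact x3.2 (by linear_combination h')
    · intro h'
      exact x4.2 (by linear_combination h')
  -- degrees
  have hU0 : PD Z 1 (fun p => U (p, z) 0) := by
    refine pd_ext (pd_add (pd_cmul (z 3) pd_fst) (pd_cmul (-z 0) pd_snd)) fun p _ => ?_
    simp only [U, Matrix.cons_val_zero]
    ring
  have hU1 : PD Z 1 (fun p => U (p, z) 1) := by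
    refine pd_ext (pd_add (pd_cmul (z 4) pd_fst) (pd_cmul (-z 1) pd_snd)) fun p _ => ?_
    have e1 : U (p, z) 1 = p.1 * z 4 - z 1 * p.2 := rfl
    rw [e1]
    ring
  have hU2 : PD Z 1 (fun p => U (p, z) 2) := by
    refine pd_ext (pd_add (pd_cmul (4 * z 5) pd_fst) (pd_cmul (-(4 * z 2)) pd_snd)) fun p _ => ?_
    simp only [U, Matrix.cons_val]
    ring
  have hquad : ∀ c0 c1 c2 c : F, PD Z 2 (fun p => c0 * U (p, z) 0 ^ 2 + c1 * U (p, z) 1 ^ 2 +
      c2 * U (p, z) 2 ^ 2 + c) := by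
    intro c0 c1 c2 c
    refine pd_ext (pd_add (pd_add (pd_add (pd_cmul c0 (pd_mul hU0 hU0))
      (pd_cmul c1 (pd_mul hU1 hU1))) (pd_cmul c2 (pd_mul hU2 hU2))) (pd_const c 2)) fun p _ => ?_
    ring
  set a : F × F → F := fun p => qa (U (p, z)) (V z) with ha
  set b : F × F → F := fun p => qb (U (p, z)) (V z) with hb
  set c : F × F → F := fun p => qc (U (p, z)) (V z) with hc
  set d : F × F → F := fun p => qd (U (p, z)) (V z) with hd
  set e : F × F → F := fun p => qe (U (p, z)) (V z) with he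
  have da : PD Z 2 a := by
    refine pd_ext (hquad 5 (-8) 3 (5 * V z 0 ^ 2 - 8 * V z 1 ^ 2 + 3 * V z 2 ^ 2)) fun p _ => ?_
    simp only [ha, qa]
    ring
  have dc : PD Z 2 c := by
    refine pd_ext (hquad (-13) 16 (-3) (-13 * V z 0 ^ 2 + 16 * V z 1 ^ 2 - 3 * V z 2 ^ 2))
      fun p _ => ?_
    simp only [hc, qc]
    ring
  have de : PD Z 2 e := by
    refine pd_ext (hquad 15 (-6) 1 (15 * V z 0 ^ 2 - 6 * V z 1 ^ 2 + V z 2 ^ 2)) fun p _ => ?_
    simp only [he, qe]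
    ring
  have db : PD Z 1 b := by
    refine pd_ext (pd_add (pd_cmul (V z 1) hU1) (pd_cmul (-2 * V z 0) hU0)) fun p _ => ?_
    simp only [hb, qb]
    ring
  have dd : PD Z 1 d := by
    refine pd_ext (pd_add (pd_cmul (8 * V z 0) hU0) (pd_cmul (-V z 1) hU1)) fun p _ => ?_
    simp only [hd, qd]
    ring
  -- the relations
  have hc3 : ∀ p ∈ Z, c p ^ 3 =
      5⁻¹ * (1080 * (b p * c p * d p) - 216 * (a p * d p ^ 2) - 2592 * (e p * b p ^ 2)) := by
    intro p hp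
    obtain ⟨hA, hB⟩ := hZ p hp
    have hA' : 144 * a p * e p - 4800 * b p * d p + 25 * c p ^ 2 = 0 := hA
    have hB' : 4320 * a p * d p ^ 2 + 51840 * e p * b p ^ 2 - 7200 * b p * c p * d p -
      432 * a p * c p * e p + 25 * c p ^ 3 = 0 := hB
    have h20 : (20 : F) ≠ 0 := by
      have : (20 : F) = 2 ^ 2 * 5 := by norm_num
      rw [this]
      exact mul_ne_zero (pow_ne_zero _ h2) h5
    have h6 : (20 : F) * (5 * c p ^ 3 - (1080 * (b p * c p * d p) - 216 * (a p * d p ^ 2) -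
        2592 * (e p * b p ^ 2))) = 0 := by
      linear_combination hB' + 3 * c p * hA'
    have h7 := (mul_eq_zero.1 h6).resolve_left h20
    rw [← sub_eq_zero.1 h7, inv_mul_cancel_left₀ h5]
  have hae : ∀ p ∈ Z, a p * e p = 144⁻¹ * (4800 * (b p * d p) - 25 * c p ^ 2) := by
    intro p hp
    obtain ⟨hA, -⟩ := hZ p hp
    have hA' : 144 * a p * e p - 4800 * b p * d p + 25 * c p ^ 2 = 0 := hA
    have h144 : (144 : F) ≠ 0 := by
      have : (144 : F) = 2 ^ 4 * 3 ^ 2 := by norm_num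
      rw [this]
      exact mul_ne_zero (pow_ne_zero _ h2) (pow_ne_zero _ h3)
    have h7 : 4800 * (b p * d p) - 25 * c p ^ 2 = 144 * (a p * e p) := by
      linear_combination -hA'
    rw [h7, inv_mul_cancel_left₀ h144]
  have dc2 : PD Z 4 (fun p => c p ^ 2) := by
    refine pd_ext (pd_mul dc dc) fun p _ => ?_
    ring
  have dbd : PD Z 2 (fun p => b p * d p) := pd_mul db dd
  have dc3 : PD Z 4 (fun p => c p ^ 3) := by
    refine pd_ext (pd_cmul 5⁻¹ (pd_add (pd_add (pd_cmul 1080 (pd_mul dbd dc))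
      (pd_cmul (-216) (pd_mul da (pd_mul dd dd)))) (pd_cmul (-2592) (pd_mul de (pd_mul db db)))))
      fun p hp => ?_
    rw [hc3 p hp]
    ring
  have dae : PD Z 4 (fun p => a p * e p) := pd_mul da de
  have dcae : PD Z 4 (fun p => c p * (a p * e p)) := by
    refine pd_ext (pd_cmul 144⁻¹ (pd_add (pd_cmul 4800 (pd_mul dbd dc)) (pd_cmul (-25) dc3)))
      fun p hp => ?_
    rw [hae p hp]
    ring
  have dae2 : PD Z 6 (fun p => (a p * e p) ^ 2) := by
    refine pd_ext (pd_cmul (144⁻¹ ^ 2) (pd_add (pd_add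
      (pd_cmul (4800 ^ 2) (pd_mono (pd_mul dbd dbd) (by norm_num : 2 + 2 ≤ 6)))
      (pd_cmul (-240000) (pd_mul dbd dc2))) (pd_cmul 625 (pd_mul dc dc3)))) fun p hp => ?_
    rw [hae p hp]
    ring
  -- the quadratic parts
  have ef : ∀ p, bf (svf (-13) 16 (-48) z) p =
      c p - (-13 * V z 0 ^ 2 + 16 * V z 1 ^ 2 - 3 * V z 2 ^ 2) := by
    intro p
    rw [bf_svf]
    simp only [hc, qc, U, Matrix.cons_val_zero, Matrix.cons_val_one, Matrix.cons_val]
    ring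
  have eg : ∀ p, bf (svf 5 (-8) 48 z) p =
      a p - (5 * V z 0 ^ 2 - 8 * V z 1 ^ 2 + 3 * V z 2 ^ 2) := by
    intro p
    rw [bf_svf]
    simp only [ha, qa, U, Matrix.cons_val_zero, Matrix.cons_val_one, Matrix.cons_val]
    ring
  have eh : ∀ p, bf (svf 15 (-6) 16 z) p =
      e p - (15 * V z 0 ^ 2 - 6 * V z 1 ^ 2 + V z 2 ^ 2) := by
    intro p
    rw [bf_svf]
    simp only [he, qe, U, Matrix.cons_val_zero, Matrix.cons_val_one, Matrix.cons_val]
    ring
  generalize -13 * V z 0 ^ 2 + 16 * V z 1 ^ 2 - 3 * V z 2 ^ 2 = kc at ef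
  generalize 5 * V z 0 ^ 2 - 8 * V z 1 ^ 2 + 3 * V z 2 ^ 2 = ka at eg
  generalize 15 * V z 0 ^ 2 - 6 * V z 1 ^ 2 + V z 2 ^ 2 = ke at eh
  have dl : PD Z 2 (fun p => -ka * e p + -ke * a p + ka * ke) :=
    pd_add (pd_add (pd_cmul (-ka) de) (pd_cmul (-ke) da)) (pd_const (ka * ke) 2)
  have D1 : PD Z 5 (fun p => bf (svf (-13) 16 (-48) z) p ^ 3) := by
    refine pd_mono (l := 5) (pd_ext (pd_add (pd_add (pd_add dc3 (pd_cmul (-3 * kc) dc2))
      (pd_cmul (3 * kc ^ 2) (pd_mono dc (by norm_num : 2 ≤ 4)))) (pd_const (-kc ^ 3) 4))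
      fun p _ => ?_) (by norm_num)
    rw [ef]
    ring
  have D2 : PD Z 5 (fun p => bf (svf (-13) 16 (-48) z) p *
      (bf (svf 5 (-8) 48 z) p * bf (svf 15 (-6) 16 z) p)) := by
    refine pd_mono (l := 5) (pd_ext (pd_add (pd_add (pd_add dcae (pd_cmul (-kc) dae))
      (pd_mul dc dl)) (pd_cmul (-kc) (pd_mono dl (by norm_num : 2 ≤ 4))))
      fun p _ => ?_) (by norm_num)
    rw [ef, eg, eh]
    ring
  have D3 : PD Z 7 (fun p => (bf (svf 5 (-8) 48 z) p * bf (svf 15 (-6) 16 z) p) ^ 2) := by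
    refine pd_mono (l := 7) (pd_ext (pd_add (pd_add dae2 (pd_cmul 2 (pd_mul dae dl)))
      (pd_mono (pd_mul dl dl) (by norm_num : 2 + 2 ≤ 6))) fun p _ => ?_) (by norm_num)
    rw [eg, eh]
    ring
  have h := hPDZ F Z 17 fun i j hij => hDEG F Z _ _ _ hfg hfh D1 D2 D3 i j hij
  norm_num at h
  exact h

end Pool.Helper67.R6
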